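import Pool.Agent.V7H66.FP.C1core
import Pool.Agent.V7H55.FP.Defs4

/-!
# Piece `C1` of the free products for `p = 2`
-/

set_option autoImplicit false

namespace Pool.Agent.V7H66.FP

open Pool.Agent.V7H55.FP

theorem t_C1 : S_C1 := fun F K _ _ _ _ h2 hsq n H hH => c1 F K h2 hsq n H hH

end Pool.Agent.V7H66.FP
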