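import Pool.Agent.V7H66.FP.FR
import Pool.Agent.V7H55.FP.Defs2

/-!
# Free products with free factors (piece `FR2` of the free products for `p = 2`)
-/

set_option autoImplicit false

namespace Pool.Agent.V7H66.FP

open Pool.Agent.V7H55.FP

lemma existence2 (hKU : S_KU) (hLI : S_LI) (F K : Type) [Field F] [Field K] [Algebra F K]
    [IsGalois F K] (h2 : (2 : K) ≠ 0) (hsq : ∀ x : K, ∃ y, y ^ 2 = x)
    (hV : Pro2 (K ≃ₐ[F] K))
    (n : ℕ) (D : Fin n → Subgroup (K ≃ₐ[F] K)) (hD : ∀ i, IsClosed (D i : Set (K ≃ₐ[F] K)))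
    (hA : Ax K (Σ i : Fin n, (K ≃ₐ[F] K) ⧸ D i) (⊤ : Subgroup (K ≃ₐ[F] K)))
    (m : ℕ) (σ : Fin m → (K ≃ₐ[F] K))
    (hδ : ∀ γ : Fin n → K, (∀ i, γ i ≠ 0 ∧ Fx (D i) (γ i ^ 2)) → ∀ ε : Fin m → ZMod 2,
      ∃ δ : K, δ ≠ 0 ∧ Fx (⊤ : Subgroup (K ≃ₐ[F] K)) (δ ^ 2) ∧
        (∀ i, ∀ d ∈ D i, sg δ d = sg (γ i) d) ∧ ∀ j, sg δ (σ j) = ε j) (k : ℕ) :
    ∀ (P : Type) [Group P] [Finite P], Nat.card P = 2 ^ k →
    ∀ φ : (i : Fin n) → (D i →* P), (∀ i, IsOpen ((φ i).ker : Set (D i))) → ∀ q : Fin m → P,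
      ∃ ψ : (K ≃ₐ[F] K) →* P, IsOpen (ψ.ker : Set (K ≃ₐ[F] K)) ∧
        (∀ i, ∀ x : D i, ψ (x : K ≃ₐ[F] K) = φ i x) ∧ ∀ j, ψ (σ j) = q j := by
  classical
  induction k with
  | zero =>
    intro P _ _ hP φ _ q
    have hsub : Subsingleton P := (Nat.card_eq_one_iff_unique.1 (by rw [hP, pow_zero])).1
    refine ⟨1, ?_, fun i x => Subsingleton.elim _ _, fun j => Subsingleton.elim _ _⟩
    rw [MonoidHom.ker_one]
    exact isOpen_univ
  | succ k ih =>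
    intro P _ _ hP φ hφ q
    obtain ⟨ζ, Q, _, _, π, hC, hQ⟩ := central hP
    obtain ⟨hC1, hC2, hC3, hC4, hC5⟩ := id hC
    obtain ⟨ψ, hψ, hψφ, hψσ⟩ := ih Q hQ (fun i => π.comp (φ i)) (fun i => by
      refine Subgroup.isOpen_mono (H₁ := (φ i).ker) ?_ (hφ i)
      intro x hx
      rw [MonoidHom.mem_ker, MonoidHom.comp_apply, MonoidHom.mem_ker.1 hx, map_one])
      (fun j => π (q j))
    -- stabilizers
    have hstab : ∀ s : Σ i : Fin n, (K ≃ₐ[F] K) ⧸ D i, ∀ x : K ≃ₐ[F] K,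
        x ∈ MulAction.stabilizer (K ≃ₐ[F] K) s ↔ (s.2.out)⁻¹ * x * s.2.out ∈ D s.1 := by
      rintro ⟨i, c⟩ x
      rw [MulAction.mem_stabilizer_iff]
      simp only [Sigma.smul_mk]
      have h1 : (⟨i, x • c⟩ : Σ i : Fin n, (K ≃ₐ[F] K) ⧸ D i) = ⟨i, c⟩ ↔ x • c = c := by
        constructor
        · intro h
          exact eq_of_heq (Sigma.mk.inj_iff.1 h).2
        · intro h
          rw [h]
      rw [h1]
      have h3 : (c.out : (K ≃ₐ[F] K) ⧸ D i) = c := Quotient.out_eq' c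
      have h4 : x • c = ((x * c.out : K ≃ₐ[F] K) : (K ≃ₐ[F] K) ⧸ D i) := by
        conv_lhs => rw [← h3]
        rfl
      rw [h4]
      conv_lhs => rw [← h3]
      rw [eq_comm, QuotientGroup.eq, mul_assoc, h3]
    have hcl : ∀ s : Σ i : Fin n, (K ≃ₐ[F] K) ⧸ D i,
        IsClosed (MulAction.stabilizer (K ≃ₐ[F] K) s : Set (K ≃ₐ[F] K)) := by
      intro s
      have hcont : Continuous fun x : K ≃ₐ[F] K => (s.2.out)⁻¹ * x * s.2.out :=
        (continuous_const.mul continuous_id).mul continuous_const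
      have h1 : (MulAction.stabilizer (K ≃ₐ[F] K) s : Set (K ≃ₐ[F] K)) =
          (fun x : K ≃ₐ[F] K => (s.2.out)⁻¹ * x * s.2.out) ⁻¹' (D s.1 : Set (K ≃ₐ[F] K)) := by
        ext x
        exact hstab s x
      rw [h1]
      exact (hD s.1).preimage hcont
    obtain ⟨θ, hθ, hθψ⟩ := hLI F K h2 hsq hV (Σ i : Fin n, (K ≃ₐ[F] K) ⧸ D i) hcl hA P Q π ζ hC ψ hψ
      (fun s => local_lift π hC1 ψ (φ s.1) (hφ s.1) (fun x => hψφ s.1 x) s.2.out _ (hstab s))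
    -- the characters
    obtain ⟨e, he⟩ : ∃ e : Fin n → (K ≃ₐ[F] K) → ZMod 2, ∀ i x, ∀ h : x ∈ D i,
        e i x = if θ x = φ i ⟨x, h⟩ then 0 else 1 :=
      ⟨fun i x => if h : x ∈ D i then (if θ x = φ i ⟨x, h⟩ then 0 else 1) else 0,
        fun i x h => dif_pos h⟩
    have he1 : ∀ i x, ∀ h : x ∈ D i, θ x = φ i ⟨x, h⟩ * ζ ^ (e i x).val := by
      intro i x h
      by_cases h1 : θ x = φ i ⟨x, h⟩
      · have h3 : e i x = 0 := by rw [he i x h, if_pos h1]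
        rw [h3, ZMod.val_zero, pow_zero, mul_one, h1]
      · have h3 : e i x = 1 := by rw [he i x h, if_neg h1]
        have hv1 : (1 : ZMod 2).val = 1 := rfl
        rw [h3, hv1, pow_one]
        have h4 : π ((φ i ⟨x, h⟩)⁻¹ * θ x) = 1 := by
          rw [map_mul, map_inv, hθψ]
          have h5 := hψφ i ⟨x, h⟩
          rw [MonoidHom.comp_apply] at h5
          rw [← h5]
          exact inv_mul_cancel _
        rcases (hC5 _).1 h4 with h6 | h6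
        · exact absurd (inv_mul_eq_one.1 h6).symm h1
        · rw [← h6, mul_inv_cancel_left]
    have he2 : ∀ i, ∀ a ∈ D i, ∀ b ∈ D i, e i (a * b) = e i a + e i b := by
      intro i a ha b hb
      apply zeta_inj hC2
      rw [zeta_add hC3]
      have h5 : θ (a * b) = θ a * θ b := map_mul θ a b
      have h6 : (⟨a * b, (D i).mul_mem ha hb⟩ : D i) = ⟨a, ha⟩ * ⟨b, hb⟩ := rfl
      rw [he1 i a ha, he1 i b hb, he1 i (a * b) ((D i).mul_mem ha hb), h6, map_mul] at h5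
      have h7 : φ i ⟨a, ha⟩ * ζ ^ (e i a).val * (φ i ⟨b, hb⟩ * ζ ^ (e i b).val) =
          φ i ⟨a, ha⟩ * φ i ⟨b, hb⟩ * (ζ ^ (e i a).val * ζ ^ (e i b).val) := by
        rw [mul_assoc (φ i ⟨a, ha⟩), ← mul_assoc (ζ ^ (e i a).val), zeta_comm hC4 _ (φ i ⟨b, hb⟩)]
        simp only [mul_assoc]
      rw [h7] at h5
      exact mul_left_cancel h5
    have he3 : ∀ i, LC (D i) (e i) := by
      intro i
      obtain ⟨W, hW, hW1⟩ := ker_sub (φ i) (hφ i)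
      refine ⟨W ⊓ θ.ker, hW.inter hθ, fun a ha w hw hww => ?_⟩
      rw [he2 i a ha w hw, he i w hw, MonoidHom.mem_ker.1 hww.2, hW1 ⟨w, hw⟩ hww.1, if_pos rfl,
        add_zero]
    have hγ : ∀ i, ∃ γ : K, γ ≠ 0 ∧ Fx (D i) (γ ^ 2) ∧ ∀ h ∈ D i, e i h = sg γ h :=
      fun i => hKU F K h2 (D i) (hD i) (e i) (he3 i) (he2 i)
    choose γ hγ0 hγ1 hγ2 using hγ
    -- the values at the `σ j`
    obtain ⟨ε, hε⟩ : ∃ ε : Fin m → ZMod 2, ∀ j, ε j = if θ (σ j) = q j then 0 else 1 :=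
      ⟨_, fun _ => rfl⟩
    have hε1 : ∀ j, θ (σ j) = q j * ζ ^ (ε j).val := by
      intro j
      by_cases h1 : θ (σ j) = q j
      · have h3 : ε j = 0 := by rw [hε j, if_pos h1]
        rw [h3, ZMod.val_zero, pow_zero, mul_one, h1]
      · have h3 : ε j = 1 := by rw [hε j, if_neg h1]
        have hv1 : (1 : ZMod 2).val = 1 := rfl
        rw [h3, hv1, pow_one]
        have h4 : π ((q j)⁻¹ * θ (σ j)) = 1 := by
          rw [map_mul, map_inv, hθψ, hψσ, inv_mul_cancel]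
        rcases (hC5 _).1 h4 with h6 | h6
        · exact absurd (inv_mul_eq_one.1 h6).symm h1
        · rw [← h6, mul_inv_cancel_left]
    obtain ⟨δ, hδ0, hδ1, hsg, hδσ⟩ := hδ γ (fun i => ⟨hγ0 i, hγ1 i⟩) ε
    obtain ⟨Ψ, hΨ⟩ : ∃ Ψ : (K ≃ₐ[F] K) →* P, ∀ g, Ψ g = θ g * ζ ^ (sg δ g).val :=
      ⟨MonoidHom.mk' (fun g => θ g * ζ ^ (sg δ g).val) (fun a b => by
        rw [sg_add h2 hδ0 hδ1 (Subgroup.mem_top a) (Subgroup.mem_top b), zeta_add hC3, map_mul]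
        rw [mul_assoc (θ a) (ζ ^ (sg δ a).val), ← mul_assoc (ζ ^ (sg δ a).val),
          zeta_comm hC4 _ (θ b)]
        simp only [mul_assoc]), fun _ => rfl⟩
    refine ⟨Ψ, ?_, ?_, ?_⟩
    · obtain ⟨W, hW, hW1⟩ := fixer_open (F := F) δ
      refine Subgroup.isOpen_mono (H₁ := W ⊓ θ.ker) ?_ (hW.inter hθ)
      intro w hw
      have h3 : sg δ w = 0 := if_pos (hW1 w hw.1)
      rw [MonoidHom.mem_ker, hΨ, h3, MonoidHom.mem_ker.1 hw.2, ZMod.val_zero, pow_zero, mul_one]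
    · intro i x
      rw [hΨ, he1 i x x.2, hsg i x x.2, ← hγ2 i x x.2, mul_assoc, ← (Commute.refl ζ).mul_pow, hC3,
        one_pow, mul_one]
    · intro j
      rw [hΨ, hε1, hδσ, mul_assoc, ← (Commute.refl ζ).mul_pow, hC3, one_pow, mul_one]

/-- **Free products.** -/
theorem t_FR2 (hKU : S_KU) (hLI : S_LI) : S_FR2 := by
  intro F K _ _ _ _ h2 hsq hV n D hD hA m σ hδ hy P _ _ hP φ hφ q
  obtain ⟨k, hk⟩ := hP
  obtain ⟨ψ, h1, h3, h3'⟩ := existence2 hKU hLI F K h2 hsq hV n D hD hA m σ hδ k P hk φ hφ q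
  refine ⟨ψ, ⟨h1, h3, h3'⟩, ?_⟩
  rintro ψ' ⟨h4, h5, h5'⟩
  by_contra hne
  obtain ⟨E, hE⟩ : ∃ E : Subgroup (K ≃ₐ[F] K), ∀ g, g ∈ E ↔ ψ' g = ψ g :=
    ⟨ψ'.eqLocus ψ, fun g => Iff.rfl⟩
  have hVE : ψ'.ker ⊓ ψ.ker ≤ E := by
    intro g hg
    rw [hE, MonoidHom.mem_ker.1 hg.1, MonoidHom.mem_ker.1 hg.2]
  have hop : IsOpen ((ψ'.ker ⊓ ψ.ker : Subgroup (K ≃ₐ[F] K)) : Set (K ≃ₐ[F] K)) := h4.inter h1
  have hEt : E ≠ ⊤ := by
    intro h
    apply hne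
    ext1 g
    exact (hE g).1 (h ▸ Subgroup.mem_top g)
  obtain ⟨j, hj⟩ := hV (ψ'.ker ⊓ ψ.ker) inferInstance hop
  obtain ⟨U, hU1, hU2⟩ := top_two (ψ'.ker ⊓ ψ.ker) inferInstance j hj E hVE hEt
  obtain ⟨γ, h6, h7, h8, τ, -, h10, h11⟩ := root_two hKU h2
    (Subgroup.isOpen_mono (hVE.trans hU1) hop) le_top hU2
  have h12 := hy γ h7 (fun i x hx => ((h8 x).1 (hU1 ((hE x).2 ((h5 i ⟨x, hx⟩).trans
    (h3 i ⟨x, hx⟩).symm)))).2) (fun j => ((h8 _).1 (hU1 ((hE _).2 ((h5' j).trans (h3' j).symm)))).2)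
  have h13 := h12 τ (Subgroup.mem_top τ)
  rw [h11] at h13
  apply h6
  have h14 : (2 : K) * γ = 0 := by linear_combination -h13
  exact (mul_eq_zero.1 h14).resolve_left h2

end Pool.Agent.V7H66.FP
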