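import Pool.Agent.V7H55.FP.Defs

/-!
# The lifting theorem (piece `LI` of the free products for `p = 2`)
-/

set_option autoImplicit false

namespace Pool.Agent.V7H66.FP

open Pool.Agent.V7H55.FP

section Grp

variable {G : Type} [Group G]

/-- a proper subgroup which contains `V` has index two in another one -/
lemma up (V : Subgroup G) (hV : V.Normal) (k : ℕ) (hk : V.index = 2 ^ k) (U : Subgroup G)
    (hVU : V ≤ U) (hU : U ≠ ⊤) : ∃ U1 : Subgroup G, U ≤ U1 ∧ U.relIndex U1 = 2 := by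
  have := hV
  have hcard : Nat.card (G ⧸ V) = 2 ^ k := hk
  have : Finite (G ⧸ V) := Nat.finite_of_card_ne_zero (by rw [hcard]; positivity)
  obtain ⟨H, hH⟩ : ∃ H : Subgroup (G ⧸ V), H = U.map (QuotientGroup.mk' V) := ⟨_, rfl⟩
  have hcomap : H.comap (QuotientGroup.mk' V) = U := by
    rw [hH, Subgroup.comap_map_eq, QuotientGroup.ker_mk', sup_eq_left.2 hVU]
  obtain ⟨n, hn, hcn⟩ := (Nat.dvd_prime_pow Nat.prime_two).1
    (hcard ▸ Subgroup.card_subgroup_dvd_card H)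
  have hnk : n ≠ k := by
    rintro rfl
    apply hU
    have h1 : H = ⊤ := Subgroup.eq_top_of_card_eq H (by rw [hcn, hcard])
    rw [← hcomap, h1, Subgroup.comap_top]
  have : Fact (Nat.Prime 2) := ⟨Nat.prime_two⟩
  obtain ⟨K, hK1, hK2⟩ := Sylow.exists_subgroup_card_pow_succ (G := G ⧸ V) (p := 2) (n := n)
    (by rw [hcard]; exact pow_dvd_pow 2 (by omega)) (H := H) hcn
  refine ⟨K.comap (QuotientGroup.mk' V), ?_, ?_⟩
  · rw [← hcomap]
    exact Subgroup.comap_mono hK2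
  · rw [← hcomap, Subgroup.relIndex_comap,
      Subgroup.map_comap_eq_self_of_surjective (QuotientGroup.mk'_surjective V)]
    have h1 := Subgroup.relIndex_mul_relIndex ⊥ H K bot_le hK2
    rw [Subgroup.relIndex_bot_left, Subgroup.relIndex_bot_left, hcn, hK1, pow_succ] at h1
    exact Nat.eq_of_mul_eq_mul_left (by positivity) h1

lemma mem_two {U U1 : Subgroup G} (h : U.relIndex U1 = 2) {a b : G} (ha : a ∈ U1) (hb : b ∈ U1) :
    a * b ∈ U ↔ (a ∈ U ↔ b ∈ U) := by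
  have h1 := Subgroup.mul_mem_iff_of_index_two (H := U.subgroupOf U1) h (a := ⟨a, ha⟩)
    (b := ⟨b, hb⟩)
  simpa [Subgroup.mem_subgroupOf] using h1

lemma index_lt {V U U1 : Subgroup G} (hV : V.index ≠ 0) (hVU : V ≤ U) (hU : U ≤ U1)
    (h : U.relIndex U1 = 2) : U1.index < U.index := by
  have h1 := Subgroup.relIndex_mul_index hU
  have h2 : U.index ≠ 0 := fun h0 => hV (Nat.eq_zero_of_zero_dvd (h0 ▸ Subgroup.index_dvd_of_le hVU))
  rw [h] at h1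
  omega

/-- induction from `V` to `⊤` -/
lemma climb (V : Subgroup G) (hV : V.Normal) (k : ℕ) (hk : V.index = 2 ^ k)
    (A : Subgroup G → Prop) (hA : A V)
    (step : ∀ U U1 : Subgroup G, V ≤ U → U ≤ U1 → U.relIndex U1 = 2 → A U → A U1) : A ⊤ := by
  have hk0 : V.index ≠ 0 := by rw [hk]; positivity
  have main : ∀ (n : ℕ) (U : Subgroup G), U.index = n → V ≤ U → A U → A ⊤ := by
    intro n
    induction n using Nat.strong_induction_on with
    | _ n ih =>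
      intro U hn hVU hAU
      by_cases hU : U = ⊤
      · rwa [hU] at hAU
      · obtain ⟨U1, h1, h2⟩ := up V hV k hk U hVU hU
        exact ih U1.index (hn ▸ index_lt hk0 hVU h1 h2) U1 rfl (hVU.trans h1)
          (step U U1 hVU h1 h2 hAU)
  exact main _ V rfl le_rfl hA

/-- induction from `⊤` down to all `U ≥ V` -/
lemma descend (V : Subgroup G) (hV : V.Normal) (k : ℕ) (hk : V.index = 2 ^ k)
    (A : Subgroup G → Prop) (hA : A ⊤)
    (step : ∀ U U1 : Subgroup G, V ≤ U → U ≤ U1 → U.relIndex U1 = 2 → A U1 → A U) :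
    ∀ U, V ≤ U → A U := by
  have hk0 : V.index ≠ 0 := by rw [hk]; positivity
  have main : ∀ (n : ℕ) (U : Subgroup G), U.index = n → V ≤ U → A U := by
    intro n
    induction n using Nat.strong_induction_on with
    | _ n ih =>
      intro U hn hVU
      by_cases hU : U = ⊤
      · rwa [hU]
      · obtain ⟨U1, h1, h2⟩ := up V hV k hk U hVU hU
        exact step U U1 hVU h1 h2 (ih U1.index (hn ▸ index_lt hk0 hVU h1 h2) U1 rfl (hVU.trans h1))
  exact fun U hU => main _ U rfl hU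

end Grp

section Char

variable {F K : Type} [Field F] [Field K] [Algebra F K]

/-- the subgroup of index two is given by a square root -/
lemma root_two [IsGalois F K] (hKU : S_KU) (h2 : (2 : K) ≠ 0) {U U1 : Subgroup (K ≃ₐ[F] K)}
    (hop : IsOpen (U : Set (K ≃ₐ[F] K))) (hU : U ≤ U1) (h : U.relIndex U1 = 2) :
    ∃ γ : K, γ ≠ 0 ∧ Fx U1 (γ ^ 2) ∧ (∀ g, g ∈ U ↔ g ∈ U1 ∧ g • γ = γ) ∧
      ∃ τ ∈ U1, τ ∉ U ∧ τ • γ = -γ := by
  classical
  have hop1 : IsOpen (U1 : Set (K ≃ₐ[F] K)) := Subgroup.isOpen_mono hU hop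
  obtain ⟨γ, h3, h4, h5⟩ := hKU F K h2 U1 (U1.isClosed_of_isOpen hop1)
    (fun g => if g ∈ U then 0 else 1)
    ⟨U, hop, fun h _ w hw1 hw => by
      simp only [mul_mem_cancel_right hw]⟩
    (by
      intro a ha b hb
      have h1 := mem_two h ha hb
      by_cases haU : a ∈ U <;> by_cases hbU : b ∈ U <;> simp [h1, haU, hbU]; decide)
  have key : ∀ g ∈ U1, (g ∈ U ↔ g • γ = γ) := by
    intro g hg
    have h6 := h5 g hg
    unfold sg at h6
    by_cases hgU : g ∈ U <;> by_cases hgγ : g • γ = γ <;> simp_all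
  refine ⟨γ, h3, h4, fun g => ⟨fun hg => ⟨hU hg, (key g (hU hg)).1 hg⟩,
    fun hg => (key g hg.1).2 hg.2⟩, ?_⟩
  obtain ⟨τ, hτ1, hτ2, -⟩ := Subgroup.relIndex_eq_two_iff_exists_notMem_and.1 h
  refine ⟨τ, hτ1, hτ2, ?_⟩
  have h7 : (τ • γ) ^ 2 = γ ^ 2 := by
    rw [← smul_pow']
    exact h4 τ hτ1
  rcases sq_eq_sq_iff_eq_or_eq_neg.1 h7 with h8 | h8
  · exact absurd ((key τ hτ1).2 h8) hτ2
  · exact h8

end Char

section LocConst

variable {G P R T : Type} [Group G] [TopologicalSpace G]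

lemma lc_mono {H H' : Subgroup G} {θ : G → P} (h : LC H θ) (hH : H' ≤ H) : LC H' θ := by
  obtain ⟨W, h1, h2⟩ := h
  exact ⟨W, h1, fun a ha w hw hw' => h2 a (hH ha) w (hH hw) hw'⟩

lemma lc_comb {H : Subgroup G} {θ : G → P} {η : G → R} (h : LC H θ) (h' : LC H η)
    (F : P → R → T) : LC H (fun g => F (θ g) (η g)) := by
  obtain ⟨W, h1, h2⟩ := h
  obtain ⟨W', h3, h4⟩ := h'
  refine ⟨W ⊓ W', h1.inter h3, fun a ha w hw hw' => ?_⟩
  simp only
  rw [h2 a ha w hw hw'.1, h4 a ha w hw hw'.2]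

end LocConst

section Zeta

variable {P : Type} [Group P] {ζ : P}

lemma zeta_add (h : ζ * ζ = 1) : ∀ a b : ZMod 2, ζ ^ (a + b).val = ζ ^ a.val * ζ ^ b.val := by
  intro a b
  have h0 : ∀ c : ZMod 2, c = 0 ∨ c = 1 := by decide
  have h11 : (1 : ZMod 2) + 1 = 0 := by decide
  have hv0 : (0 : ZMod 2).val = 0 := rfl
  have hv1 : (1 : ZMod 2).val = 1 := rfl
  rcases h0 a with rfl | rfl <;> rcases h0 b with rfl | rfl
  · simp
  · simp
  · simp
  · rw [h11, hv0, hv1, pow_zero, pow_one, h]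

lemma zeta_inj (h1 : ζ ≠ 1) : ∀ a b : ZMod 2, ζ ^ a.val = ζ ^ b.val → a = b := by
  intro a b hab
  have h0 : ∀ c : ZMod 2, c = 0 ∨ c = 1 := by decide
  have hv0 : (0 : ZMod 2).val = 0 := rfl
  have hv1 : (1 : ZMod 2).val = 1 := rfl
  rcases h0 a with rfl | rfl <;> rcases h0 b with rfl | rfl
  · rfl
  · rw [hv0, hv1, pow_zero, pow_one] at hab
    exact absurd hab.symm h1
  · rw [hv0, hv1, pow_zero, pow_one] at hab
    exact absurd hab h1
  · rfl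

lemma zeta_comm (h : ∀ x, ζ * x = x * ζ) (n : ℕ) (x : P) : ζ ^ n * x = x * ζ ^ n :=
  (Commute.pow_left (h x) n).eq

end Zeta

section Lift

variable {F K : Type} [Field F] [Field K] [Algebra F K]

/-- the axioms go down -/
lemma ax_down [IsGalois F K] (hKU : S_KU) (hST1 : S_ST1) (hST2 : S_ST2) (h2 : (2 : K) ≠ 0)
    {S : Type} [MulAction (K ≃ₐ[F] K) S] {U U1 : Subgroup (K ≃ₐ[F] K)}
    (hop : IsOpen (U : Set (K ≃ₐ[F] K))) (hU : U ≤ U1) (h : U.relIndex U1 = 2)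
    (hA : Ax K S U1) : Ax K S U := by
  obtain ⟨γ, h3, h4, h5, τ, h6, h7, h8⟩ := root_two hKU h2 hop hU h
  have hH : Half U1 U τ γ := by
    refine ⟨hU, h6, h7, fun u hu => ?_, h3, fun u hu => ((h5 u).1 hu).2, h8⟩
    by_cases huU : u ∈ U
    · exact Or.inl huU
    · right
      rw [mem_two h (U1.inv_mem h6) hu, inv_mem_iff]
      exact ⟨fun hh => absurd hh h7, fun hh => absurd hh huU⟩
  exact ⟨fun x y h9 h10 h11 h12 h13 => hST1 _ K S U1 U τ γ h2 hH hA x y h9 h10 h11 h12 h13,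
    fun z hz hz0 => hST2 _ K S U1 U τ γ h2 hH hA z hz hz0⟩

/-- a lift on `U` -/
def Lift {P Q : Type} [Group P] [Group Q] (π : P →* Q) (ψ : (K ≃ₐ[F] K) →* Q)
    (U : Subgroup (K ≃ₐ[F] K)) : Prop :=
  ∃ θ : (K ≃ₐ[F] K) → P, LC U θ ∧ (∀ g ∈ U, π (θ g) = ψ g) ∧
    ∀ g ∈ U, ∀ h ∈ U, θ (g * h) = θ g * θ h

lemma lift_step [IsGalois F K] (hCH : S_CH) (hKU : S_KU) (hD1 : S_D1) (hD2 : S_D2) (hG1 : S_G1)
    (h2 : (2 : K) ≠ 0) (hsq : ∀ x : K, ∃ y, y ^ 2 = x)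
    {S : Type} [MulAction (K ≃ₐ[F] K) S]
    (hst : ∀ s : S, IsClosed (MulAction.stabilizer (K ≃ₐ[F] K) s : Set (K ≃ₐ[F] K)))
    {P Q : Type} [Group P] [Group Q] (π : P →* Q) (ζ : P) (hC : Cen π ζ)
    (ψ : (K ≃ₐ[F] K) →* Q) (hψ : IsOpen (ψ.ker : Set (K ≃ₐ[F] K)))
    (hs : ∀ s : S, Lift π ψ (MulAction.stabilizer (K ≃ₐ[F] K) s))
    {U U1 : Subgroup (K ≃ₐ[F] K)}
    (hop : IsOpen (U : Set (K ≃ₐ[F] K))) (hU : U ≤ U1) (h : U.relIndex U1 = 2)
    (hA : Ax K S U1) (hL : Lift π ψ U) : Lift π ψ U1 := by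
  classical
  obtain ⟨hC1, hC2, hC3, hC4, hC5⟩ := hC
  have hop1 : IsOpen (U1 : Set (K ≃ₐ[F] K)) := Subgroup.isOpen_mono hU hop
  have hcl1 : IsClosed (U1 : Set (K ≃ₐ[F] K)) := U1.isClosed_of_isOpen hop1
  obtain ⟨α, hα0, hα1, hα2, -⟩ := root_two hKU h2 hop hU h
  obtain ⟨θ, hθ1, hθ2, hθ3⟩ := hL
  obtain ⟨β, hβ0, hβ1, θ', a1, a2, a3⟩ := hG1 F K h2 U1 hcl1 P Q π ζ ⟨hC1, hC2, hC3, hC4, hC5⟩ ψ hψ
    α hα0 hα1 U hα2 θ hθ1 hθ2 hθ3
  have hloc : ∀ s : S, ∃ v : K × K, (∀ u ∈ U1, u • s = s → u • v = v) ∧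
      β ^ 2 = v.1 ^ 2 - α ^ 2 * v.2 ^ 2 := by
    intro s
    obtain ⟨θs, b1, b2, b3⟩ := hs s
    obtain ⟨H, hH⟩ : ∃ H : Subgroup (K ≃ₐ[F] K), H = U1 ⊓ MulAction.stabilizer (K ≃ₐ[F] K) s :=
      ⟨_, rfl⟩
    have hH1 : H ≤ U1 := hH ▸ inf_le_left
    have hH2 : H ≤ MulAction.stabilizer (K ≃ₐ[F] K) s := hH ▸ inf_le_right
    have hHcl : IsClosed (H : Set (K ≃ₐ[F] K)) := by
      rw [hH]
      exact hcl1.inter (hst s)
    obtain ⟨e, he⟩ : ∃ e : (K ≃ₐ[F] K) → ZMod 2, e = fun g => if θ' g = θs g then 0 else 1 :=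
      ⟨_, rfl⟩
    have he1 : ∀ g ∈ H, θ' g = θs g * ζ ^ (e g).val := by
      intro g hg
      by_cases hg1 : θ' g = θs g
      · have : e g = 0 := by rw [he]; exact if_pos hg1
        rw [this, ZMod.val_zero, pow_zero, mul_one, hg1]
      · have : e g = 1 := by rw [he]; exact if_neg hg1
        have hv1 : (1 : ZMod 2).val = 1 := rfl
        rw [this, hv1, pow_one]
        have h3 : π ((θs g)⁻¹ * θ' g) = 1 := by
          rw [map_mul, map_inv, a2 g (hH1 hg), b2 g (hH2 hg), inv_mul_cancel]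
        rcases (hC5 _).1 h3 with h4 | h4
        · exact absurd (inv_mul_eq_one.1 h4).symm hg1
        · rw [← h4, mul_inv_cancel_left]
    have he2 : LC H e := by
      rw [he]
      exact lc_comb (lc_mono a1 hH1) (lc_mono b1 hH2) (fun x y => if x = y then (0 : ZMod 2) else 1)
    have he3 : ∀ g ∈ H, ∀ h ∈ H, e (g * h) = e g + e h + sg β g * sg α h := by
      intro g hg k hk
      apply zeta_inj hC2
      rw [zeta_add hC3, zeta_add hC3]
      have h5 := a3 g (hH1 hg) k (hH1 hk)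
      rw [he1 g hg, he1 k hk, he1 (g * k) (H.mul_mem hg hk), b3 g (hH2 hg) k (hH2 hk)] at h5
      have h6 : θs g * ζ ^ (e g).val * (θs k * ζ ^ (e k).val) * ζ ^ (sg β g * sg α k).val =
          θs g * θs k * (ζ ^ (e g).val * ζ ^ (e k).val * ζ ^ (sg β g * sg α k).val) := by
        rw [mul_assoc (θs g), ← mul_assoc (ζ ^ (e g).val), zeta_comm hC4 _ (θs k)]
        simp only [mul_assoc]
      rw [h6] at h5
      exact mul_left_cancel h5
    obtain ⟨r, t, hr, ht, hrt⟩ := hD2 F K h2 hsq H hHcl α β hα0 hβ0 (fun u hu => hα1 u (hH1 hu))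
      (fun u hu => hβ1 u (hH1 hu)) e he2 he3
    refine ⟨(r, t), fun u hu hus => ?_, hrt⟩
    have huH : u ∈ H := by
      rw [hH]
      exact ⟨hu, MulAction.mem_stabilizer_iff.2 hus⟩
    exact Prod.ext (hr u huH) (ht u huH)
  obtain ⟨f, hf1, hf2⟩ := hCH (K ≃ₐ[F] K) S (K × K) U1
    (fun _ v => β ^ 2 = v.1 ^ 2 - α ^ 2 * v.2 ^ 2) (by
      intro u hu s v hv
      have h3 : u • (β ^ 2) = u • (v.1 ^ 2 - α ^ 2 * v.2 ^ 2) := by rw [hv]
      rw [hβ1 u hu, smul_sub, smul_mul', hα1 u hu, smul_pow', smul_pow'] at h3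
      exact h3) hloc
  obtain ⟨r, t, hr, ht, hrt⟩ := hA.h1 (α ^ 2) (β ^ 2) hα1 hβ1 (pow_ne_zero 2 hα0)
    (pow_ne_zero 2 hβ0) ⟨fun s => (f s).1, fun s => (f s).2, fun u hu s => by
      simp only [hf1 u hu s]; rfl, fun u hu s => by simp only [hf1 u hu s]; rfl, hf2⟩
  obtain ⟨e, he1, he2⟩ := hD1 F K h2 hsq U1 α β r t hα0 hβ0 hα1 hβ1 hr ht hrt
  refine ⟨fun g => θ' g * ζ ^ (e g).val, lc_comb a1 he1 (fun x y => x * ζ ^ y.val), ?_, ?_⟩
  · intro g hg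
    have h3 : π ζ = 1 := (hC5 ζ).2 (Or.inr rfl)
    simp only
    rw [map_mul, map_pow, h3, one_pow, mul_one, a2 g hg]
  · intro g hg k hk
    simp only
    rw [a3 g hg k hk, he2 g hg k hk, zeta_add hC3, zeta_add hC3]
    have h7 : ζ ^ (sg β g * sg α k).val * ζ ^ (sg β g * sg α k).val = 1 := by
      rw [← (Commute.refl ζ).mul_pow, hC3, one_pow]
    calc θ' g * θ' k * ζ ^ (sg β g * sg α k).val *
          (ζ ^ (e g).val * ζ ^ (e k).val * ζ ^ (sg β g * sg α k).val)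
        = θ' g * θ' k * (ζ ^ (e g).val * ζ ^ (e k).val) *
          (ζ ^ (sg β g * sg α k).val * ζ ^ (sg β g * sg α k).val) := by
          rw [mul_assoc (θ' g * θ' k), mul_assoc (θ' g * θ' k)]
          congr 1
          rw [← mul_assoc, zeta_comm hC4 (sg β g * sg α k).val, mul_assoc]
      _ = θ' g * θ' k * (ζ ^ (e g).val * ζ ^ (e k).val) := by rw [h7, mul_one]
      _ = θ' g * ζ ^ (e g).val * (θ' k * ζ ^ (e k).val) := by
          rw [mul_assoc (θ' g), mul_assoc (θ' g), ← mul_assoc (θ' k), ← zeta_comm hC4 _ (θ' k),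
            mul_assoc]

end Lift

/-- **The lifting theorem.** -/
theorem t_LI (hCH : S_CH) (hKU : S_KU) (hD1 : S_D1) (hD2 : S_D2) (hG1 : S_G1) (hST1 : S_ST1)
    (hST2 : S_ST2) : S_LI := by
  intro F K _ _ _ _ h2 hsq hV S _ hst hA P Q _ _ π ζ hC ψ hψ hs
  obtain ⟨k, hk⟩ := hV ψ.ker inferInstance hψ
  have hopU : ∀ U : Subgroup (K ≃ₐ[F] K), ψ.ker ≤ U → IsOpen (U : Set (K ≃ₐ[F] K)) :=
    fun U hU => Subgroup.isOpen_mono hU hψ
  have hAx : ∀ U : Subgroup (K ≃ₐ[F] K), ψ.ker ≤ U → Ax K S U :=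
    descend ψ.ker inferInstance k hk (fun U => Ax K S U) hA
      (fun U U1 hU hU1 h hA1 => ax_down hKU hST1 hST2 h2 (hopU U hU) hU1 h hA1)
  have hL : Lift π ψ (⊤ : Subgroup (K ≃ₐ[F] K)) := by
    refine climb ψ.ker inferInstance k hk (Lift π ψ) ?_ ?_
    · refine ⟨fun _ => 1, ⟨⊤, isOpen_univ, fun _ _ _ _ _ => rfl⟩, fun g hg => ?_, fun g _ h _ => ?_⟩
      · rw [map_one, MonoidHom.mem_ker.1 hg]
      · rw [mul_one]
    · intro U U1 hU hU1 h hLU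
      exact lift_step hCH hKU hD1 hD2 hG1 h2 hsq hst π ζ hC ψ hψ hs (hopU U hU) hU1 h
        (hAx U1 (hU.trans hU1)) hLU
  obtain ⟨θ, ⟨W, hW1, hW2⟩, h3, h4⟩ := hL
  obtain ⟨Θ, hΘ⟩ : ∃ Θ : (K ≃ₐ[F] K) →* P, ∀ g, Θ g = θ g :=
    ⟨MonoidHom.mk' θ (fun a b => h4 a (Subgroup.mem_top a) b (Subgroup.mem_top b)), fun _ => rfl⟩
  refine ⟨Θ, Subgroup.isOpen_mono (H₁ := W) ?_ hW1, fun g => ?_⟩
  · intro w hw
    rw [MonoidHom.mem_ker]
    have h5 := hW2 1 (Subgroup.mem_top _) w (Subgroup.mem_top _) hw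
    rw [one_mul, ← hΘ, ← hΘ, map_one] at h5
    exact h5
  · rw [hΘ]
    exact h3 g (Subgroup.mem_top g)

end Pool.Agent.V7H66.FP
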