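import Pool.Agent.V7H66.FP.LI

/-!
# Free products (piece `FR` of the free products for `p = 2`)
-/

set_option autoImplicit false

namespace Pool.Agent.V7H66.FP

open Pool.Agent.V7H55.FP

section Grp

variable {G : Type} [Group G]

/-- a proper subgroup which contains `V` is contained in a subgroup of index two -/
lemma top_two (V : Subgroup G) (hV : V.Normal) (k : ℕ) (hk : V.index = 2 ^ k) (E : Subgroup G)
    (hVE : V ≤ E) (hE : E ≠ ⊤) : ∃ U : Subgroup G, E ≤ U ∧ U.relIndex ⊤ = 2 := by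
  have hk0 : V.index ≠ 0 := by rw [hk]; positivity
  have main : ∀ (n : ℕ) (U : Subgroup G), U.index = n → V ≤ U → U ≠ ⊤ →
      ∃ U' : Subgroup G, U ≤ U' ∧ U'.relIndex ⊤ = 2 := by
    intro n
    induction n using Nat.strong_induction_on with
    | _ n ih =>
      intro U hn hVU hU
      obtain ⟨U1, h1, h2⟩ := up V hV k hk U hVU hU
      by_cases hU1 : U1 = ⊤
      · rw [hU1] at h2
        exact ⟨U, le_rfl, h2⟩
      · obtain ⟨U', h3, h4⟩ := ih U1.index (hn ▸ index_lt hk0 hVU h1 h2) U1 rfl (hVU.trans h1) hU1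
        exact ⟨U', h1.trans h3, h4⟩
  exact main _ E rfl hVE hE

end Grp

section Sg

variable {G K : Type} [Group G] [Field K] [MulSemiringAction G K]

lemma smul_root {H : Subgroup G} {β : K} (hβ : Fx H (β ^ 2)) {g : G} (hg : g ∈ H) :
    g • β = β ∨ g • β = -β := by
  have h1 : (g • β) ^ 2 = β ^ 2 := by
    rw [← smul_pow']
    exact hβ g hg
  exact sq_eq_sq_iff_eq_or_eq_neg.1 h1

lemma sg_add (h2 : (2 : K) ≠ 0) {H : Subgroup G} {β : K} (hβ0 : β ≠ 0) (hβ : Fx H (β ^ 2))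
    {g h : G} (hg : g ∈ H) (hh : h ∈ H) : sg β (g * h) = sg β g + sg β h := by
  classical
  have hne : -β ≠ β := by
    intro h3
    apply hβ0
    have h4 : (2 : K) * β = 0 := by linear_combination -h3
    exact (mul_eq_zero.1 h4).resolve_left h2
  have h11 : (1 : ZMod 2) + 1 = 0 := by decide
  unfold sg
  rw [mul_smul]
  rcases smul_root hβ hg with h5 | h5 <;> rcases smul_root hβ hh with h6 | h6
  · simp [h5, h6]
  · simp [h6, smul_neg, h5, hne]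
  · simp [h5, h6, hne]
  · simp [h6, smul_neg, h5, hne, h11]

end Sg

section Open

variable {F K : Type} [Field F] [Field K] [Algebra F K]

/-- an open neighbourhood of one contains an open subgroup -/
lemma open_sub {O : Set (K ≃ₐ[F] K)} (hO : IsOpen O) (h1 : (1 : K ≃ₐ[F] K) ∈ O) :
    ∃ W : Subgroup (K ≃ₐ[F] K), IsOpen (W : Set (K ≃ₐ[F] K)) ∧ (W : Set (K ≃ₐ[F] K)) ⊆ O := by
  obtain ⟨E, hE, hEO⟩ := (krullTopology_mem_nhds_one_iff F K O).1 (hO.mem_nhds h1)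
  exact ⟨E.fixingSubgroup, E.fixingSubgroup_isOpen, hEO⟩

/-- the kernel of a homomorphism on `D` contains `W ∩ D` for an open subgroup `W` -/
lemma ker_sub {P : Type} [Group P] {D : Subgroup (K ≃ₐ[F] K)} (φ : D →* P)
    (hφ : IsOpen (φ.ker : Set D)) : ∃ W : Subgroup (K ≃ₐ[F] K), IsOpen (W : Set (K ≃ₐ[F] K)) ∧
      ∀ x : D, (x : K ≃ₐ[F] K) ∈ W → φ x = 1 := by
  obtain ⟨O, hO, hO2⟩ := isOpen_induced_iff.1 hφ
  have h1 : (1 : K ≃ₐ[F] K) ∈ O := by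
    have : (1 : D) ∈ (φ.ker : Set D) := φ.ker.one_mem
    rw [← hO2] at this
    exact this
  obtain ⟨W, hW, hWO⟩ := open_sub hO h1
  refine ⟨W, hW, fun x hx => ?_⟩
  have h2 : x ∈ (φ.ker : Set D) := by
    rw [← hO2]
    exact hWO hx
  exact h2

/-- the fixer of a number is open -/
lemma fixer_open [IsGalois F K] (δ : K) : ∃ W : Subgroup (K ≃ₐ[F] K),
    IsOpen (W : Set (K ≃ₐ[F] K)) ∧ ∀ g ∈ W, g • δ = δ := by
  have h1 : IsIntegral F δ := Algebra.IsIntegral.isIntegral δ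
  have : FiniteDimensional F (IntermediateField.adjoin F {δ}) :=
    IntermediateField.adjoin.finiteDimensional h1
  exact ⟨(IntermediateField.adjoin F {δ}).fixingSubgroup,
    (IntermediateField.adjoin F {δ}).fixingSubgroup_isOpen, fun g hg =>
    (IntermediateField.mem_fixingSubgroup_iff _ g).1 hg δ
      (IntermediateField.mem_adjoin_simple_self F δ)⟩

end Open

/-- a nontrivial finite 2-group has a central element of order two -/
lemma central {P : Type} [Group P] [Finite P] {k : ℕ} (hk : Nat.card P = 2 ^ (k + 1)) :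
    ∃ (ζ : P) (Q : Type) (_ : Group Q) (_ : Finite Q) (π : P →* Q), Cen π ζ ∧
      Nat.card Q = 2 ^ k := by
  have : Fact (Nat.Prime 2) := ⟨Nat.prime_two⟩
  obtain ⟨j, hj, hcj⟩ := IsPGroup.card_center_eq_prime_pow hk (Nat.succ_pos k)
  obtain ⟨z, hz⟩ := exists_prime_orderOf_dvd_card' (G := Subgroup.center P) 2
    (by rw [hcj]; exact dvd_pow_self 2 (by omega))
  obtain ⟨ζ, hζ⟩ : ∃ ζ : P, ζ = (z : P) := ⟨_, rfl⟩
  have hord : orderOf ζ = 2 := by rw [hζ, Subgroup.orderOf_coe, hz]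
  have hc : ∀ x, ζ * x = x * ζ := fun x => by
    rw [hζ]
    exact ((Subgroup.mem_center_iff.1 z.2) x).symm
  have h2 : ζ * ζ = 1 := by
    have := pow_orderOf_eq_one ζ
    rwa [hord, pow_two] at this
  have h1 : ζ ≠ 1 := by
    rintro rfl
    rw [orderOf_one] at hord
    omega
  have hmem : ∀ x, x ∈ Subgroup.zpowers ζ ↔ x = 1 ∨ x = ζ := by
    intro x
    constructor
    · intro hx
      obtain ⟨n, rfl⟩ := Subgroup.mem_zpowers_iff.1 hx
      rcases Int.even_or_odd' n with ⟨m, rfl | rfl⟩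
      · left
        rw [zpow_mul, zpow_two, h2, one_zpow]
      · right
        rw [zpow_add, zpow_mul, zpow_two, h2, one_zpow, zpow_one, one_mul]
    · rintro (rfl | rfl)
      · exact Subgroup.one_mem _
      · exact Subgroup.mem_zpowers _
  have hn : (Subgroup.zpowers ζ).Normal := by
    refine ⟨fun x hx g => ?_⟩
    rcases (hmem x).1 hx with rfl | rfl
    · rw [mul_one, mul_inv_cancel]
      exact Subgroup.one_mem _
    · rw [← hc, mul_inv_cancel_right]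
      exact Subgroup.mem_zpowers _
  refine ⟨ζ, P ⧸ Subgroup.zpowers ζ, inferInstance, inferInstance,
    QuotientGroup.mk' (Subgroup.zpowers ζ), ⟨QuotientGroup.mk'_surjective _, h1, h2, hc,
      fun x => ?_⟩, ?_⟩
  · rw [← hmem, ← MonoidHom.mem_ker, QuotientGroup.ker_mk']
  · have h3 := Subgroup.card_eq_card_quotient_mul_card_subgroup (Subgroup.zpowers ζ)
    rw [hk, Nat.card_zpowers, hord, pow_succ] at h3
    exact (Nat.eq_of_mul_eq_mul_right (by norm_num) h3).symm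

section Loc

variable {F K : Type} [Field F] [Field K] [Algebra F K]

/-- the local lifts at the conjugates of `D` -/
lemma local_lift {P Q : Type} [Group P] [Group Q] (π : P →* Q) (hπ : Function.Surjective π)
    (ψ : (K ≃ₐ[F] K) →* Q) {D : Subgroup (K ≃ₐ[F] K)} (φ : D →* P)
    (hφ : IsOpen (φ.ker : Set D)) (hψφ : ∀ x : D, ψ (x : K ≃ₐ[F] K) = π (φ x))
    (g : K ≃ₐ[F] K) (H : Subgroup (K ≃ₐ[F] K)) (hH : ∀ x, x ∈ H ↔ g⁻¹ * x * g ∈ D) :
    Lift π ψ H := by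
  classical
  obtain ⟨p, hp⟩ := hπ (ψ g)
  obtain ⟨W, hW, hW1⟩ := ker_sub φ hφ
  have hcont : Continuous fun x : K ≃ₐ[F] K => g⁻¹ * x * g :=
    (continuous_const.mul continuous_id).mul continuous_const
  obtain ⟨c, hc⟩ : ∃ c : (K ≃ₐ[F] K) →* (K ≃ₐ[F] K), ∀ x, c x = g⁻¹ * x * g :=
    ⟨MonoidHom.mk' (fun x => g⁻¹ * x * g) (fun a b => by group), fun _ => rfl⟩
  obtain ⟨θ, hθ⟩ : ∃ θ : (K ≃ₐ[F] K) → P, ∀ x, ∀ h : g⁻¹ * x * g ∈ D,
      θ x = p * φ ⟨g⁻¹ * x * g, h⟩ * p⁻¹ :=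
    ⟨fun x => if h : g⁻¹ * x * g ∈ D then p * φ ⟨g⁻¹ * x * g, h⟩ * p⁻¹ else 1,
      fun x h => dif_pos h⟩
  have hmul : ∀ a ∈ H, ∀ b ∈ H, θ (a * b) = θ a * θ b := by
    intro a ha b hb
    have ha' := (hH a).1 ha
    have hb' := (hH b).1 hb
    have hab' := (hH (a * b)).1 (H.mul_mem ha hb)
    rw [hθ a ha', hθ b hb', hθ (a * b) hab']
    have h1 : (⟨g⁻¹ * (a * b) * g, hab'⟩ : D) = ⟨g⁻¹ * a * g, ha'⟩ * ⟨g⁻¹ * b * g, hb'⟩ := by
      apply Subtype.ext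
      rw [Subgroup.coe_mul]
      group
    rw [h1, map_mul]
    group
  refine ⟨θ, ⟨W.comap c, ?_, ?_⟩, ?_, hmul⟩
  · have h1 : ((W.comap c : Subgroup (K ≃ₐ[F] K)) : Set (K ≃ₐ[F] K)) =
        (fun x : K ≃ₐ[F] K => g⁻¹ * x * g) ⁻¹' (W : Set (K ≃ₐ[F] K)) := by
      ext x
      simp only [Subgroup.coe_comap, Set.mem_preimage, hc]
    rw [h1]
    exact hW.preimage hcont
  · intro a ha w hw hwW
    rw [hmul a ha w hw, hθ w ((hH w).1 hw)]
    rw [Subgroup.mem_comap, hc] at hwW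
    rw [hW1 ⟨g⁻¹ * w * g, (hH w).1 hw⟩ hwW, mul_one, mul_inv_cancel, mul_one]
  · intro x hx
    rw [hθ x ((hH x).1 hx), map_mul, map_mul, map_inv, hp, ← hψφ, map_mul, map_mul, map_inv]
    group

end Loc

lemma existence (hKU : S_KU) (hLI : S_LI) (F K : Type) [Field F] [Field K] [Algebra F K]
    [IsGalois F K] (h2 : (2 : K) ≠ 0) (hsq : ∀ x : K, ∃ y, y ^ 2 = x)
    (hV : ∀ V : Subgroup (K ≃ₐ[F] K), V.Normal → IsOpen (V : Set (K ≃ₐ[F] K)) →
      ∃ k : ℕ, V.index = 2 ^ k)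
    (n : ℕ) (D : Fin n → Subgroup (K ≃ₐ[F] K)) (hD : ∀ i, IsClosed (D i : Set (K ≃ₐ[F] K)))
    (hA : Ax K (Σ i : Fin n, (K ≃ₐ[F] K) ⧸ D i) (⊤ : Subgroup (K ≃ₐ[F] K))) (k : ℕ) :
    ∀ (P : Type) [Group P] [Finite P], Nat.card P = 2 ^ k →
    ∀ φ : (i : Fin n) → (D i →* P), (∀ i, IsOpen ((φ i).ker : Set (D i))) →
      ∃ ψ : (K ≃ₐ[F] K) →* P, IsOpen (ψ.ker : Set (K ≃ₐ[F] K)) ∧
        ∀ i, ∀ x : D i, ψ (x : K ≃ₐ[F] K) = φ i x := by
  classical
  induction k with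
  | zero =>
    intro P _ _ hP φ _
    have hsub : Subsingleton P := (Nat.card_eq_one_iff_unique.1 (by rw [hP, pow_zero])).1
    refine ⟨1, ?_, fun i x => Subsingleton.elim _ _⟩
    rw [MonoidHom.ker_one]
    exact isOpen_univ
  | succ k ih =>
    intro P _ _ hP φ hφ
    obtain ⟨ζ, Q, _, _, π, hC, hQ⟩ := central hP
    obtain ⟨hC1, hC2, hC3, hC4, hC5⟩ := id hC
    obtain ⟨ψ, hψ, hψφ⟩ := ih Q hQ (fun i => π.comp (φ i)) (fun i => by
      refine Subgroup.isOpen_mono (H₁ := (φ i).ker) ?_ (hφ i)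
      intro x hx
      rw [MonoidHom.mem_ker, MonoidHom.comp_apply, MonoidHom.mem_ker.1 hx, map_one])
    -- stabilizers
    have hstab : ∀ s : Σ i : Fin n, (K ≃ₐ[F] K) ⧸ D i, ∀ x : K ≃ₐ[F] K,
        x ∈ MulAction.stabilizer (K ≃ₐ[F] K) s ↔ (s.2.out)⁻¹ * x * s.2.out ∈ D s.1 := by
      rintro ⟨i, c⟩ x
      rw [MulAction.mem_stabilizer_iff]
      simp only [Sigma.smul_mk]
      have h1 : (⟨i, x • c⟩ : Σ i : Fin n, (K ≃ₐ[F] K) ⧸ D i) = ⟨i, c⟩ ↔ x • c = c := by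
        constructor
        · intro h
          exact eq_of_heq (Sigma.mk.inj_iff.1 h).2
        · intro h
          rw [h]
      rw [h1]
      have h3 : (c.out : (K ≃ₐ[F] K) ⧸ D i) = c := Quotient.out_eq' c
      have h4 : x • c = ((x * c.out : K ≃ₐ[F] K) : (K ≃ₐ[F] K) ⧸ D i) := by
        conv_lhs => rw [← h3]
        rfl
      rw [h4]
      conv_lhs => rw [← h3]
      rw [eq_comm, QuotientGroup.eq, mul_assoc, h3]
    have hcl : ∀ s : Σ i : Fin n, (K ≃ₐ[F] K) ⧸ D i,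
        IsClosed (MulAction.stabilizer (K ≃ₐ[F] K) s : Set (K ≃ₐ[F] K)) := by
      intro s
      have hcont : Continuous fun x : K ≃ₐ[F] K => (s.2.out)⁻¹ * x * s.2.out :=
        (continuous_const.mul continuous_id).mul continuous_const
      have h1 : (MulAction.stabilizer (K ≃ₐ[F] K) s : Set (K ≃ₐ[F] K)) =
          (fun x : K ≃ₐ[F] K => (s.2.out)⁻¹ * x * s.2.out) ⁻¹' (D s.1 : Set (K ≃ₐ[F] K)) := by
        ext x
        exact hstab s x
      rw [h1]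
      exact (hD s.1).preimage hcont
    obtain ⟨θ, hθ, hθψ⟩ := hLI F K h2 hsq hV (Σ i : Fin n, (K ≃ₐ[F] K) ⧸ D i) hcl hA P Q π ζ hC ψ hψ
      (fun s => local_lift π hC1 ψ (φ s.1) (hφ s.1) (fun x => hψφ s.1 x) s.2.out _ (hstab s))
    -- the characters
    obtain ⟨e, he⟩ : ∃ e : Fin n → (K ≃ₐ[F] K) → ZMod 2, ∀ i x, ∀ h : x ∈ D i,
        e i x = if θ x = φ i ⟨x, h⟩ then 0 else 1 :=
      ⟨fun i x => if h : x ∈ D i then (if θ x = φ i ⟨x, h⟩ then 0 else 1) else 0,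
        fun i x h => dif_pos h⟩
    have he1 : ∀ i x, ∀ h : x ∈ D i, θ x = φ i ⟨x, h⟩ * ζ ^ (e i x).val := by
      intro i x h
      by_cases h1 : θ x = φ i ⟨x, h⟩
      · have h3 : e i x = 0 := by rw [he i x h, if_pos h1]
        rw [h3, ZMod.val_zero, pow_zero, mul_one, h1]
      · have h3 : e i x = 1 := by rw [he i x h, if_neg h1]
        have hv1 : (1 : ZMod 2).val = 1 := rfl
        rw [h3, hv1, pow_one]
        have h4 : π ((φ i ⟨x, h⟩)⁻¹ * θ x) = 1 := by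
          rw [map_mul, map_inv, hθψ]
          have h5 := hψφ i ⟨x, h⟩
          rw [MonoidHom.comp_apply] at h5
          rw [← h5]
          exact inv_mul_cancel _
        rcases (hC5 _).1 h4 with h6 | h6
        · exact absurd (inv_mul_eq_one.1 h6).symm h1
        · rw [← h6, mul_inv_cancel_left]
    have he2 : ∀ i, ∀ a ∈ D i, ∀ b ∈ D i, e i (a * b) = e i a + e i b := by
      intro i a ha b hb
      apply zeta_inj hC2
      rw [zeta_add hC3]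
      have h5 : θ (a * b) = θ a * θ b := map_mul θ a b
      have h6 : (⟨a * b, (D i).mul_mem ha hb⟩ : D i) = ⟨a, ha⟩ * ⟨b, hb⟩ := rfl
      rw [he1 i a ha, he1 i b hb, he1 i (a * b) ((D i).mul_mem ha hb), h6, map_mul] at h5
      have h7 : φ i ⟨a, ha⟩ * ζ ^ (e i a).val * (φ i ⟨b, hb⟩ * ζ ^ (e i b).val) =
          φ i ⟨a, ha⟩ * φ i ⟨b, hb⟩ * (ζ ^ (e i a).val * ζ ^ (e i b).val) := by
        rw [mul_assoc (φ i ⟨a, ha⟩), ← mul_assoc (ζ ^ (e i a).val), zeta_comm hC4 _ (φ i ⟨b, hb⟩)]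
        simp only [mul_assoc]
      rw [h7] at h5
      exact mul_left_cancel h5
    have he3 : ∀ i, LC (D i) (e i) := by
      intro i
      obtain ⟨W, hW, hW1⟩ := ker_sub (φ i) (hφ i)
      refine ⟨W ⊓ θ.ker, hW.inter hθ, fun a ha w hw hww => ?_⟩
      rw [he2 i a ha w hw, he i w hw, MonoidHom.mem_ker.1 hww.2, hW1 ⟨w, hw⟩ hww.1, if_pos rfl,
        add_zero]
    have hγ : ∀ i, ∃ γ : K, γ ≠ 0 ∧ Fx (D i) (γ ^ 2) ∧ ∀ h ∈ D i, e i h = sg γ h :=
      fun i => hKU F K h2 (D i) (hD i) (e i) (he3 i) (he2 i)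
    choose γ hγ0 hγ1 hγ2 using hγ
    -- approximation
    have hout : ∀ (i : Fin n) (g : K ≃ₐ[F] K),
        ((g : (K ≃ₐ[F] K) ⧸ D i).out) • (γ i ^ 2) = g • (γ i ^ 2) := by
      intro i g
      have h3 : ((g : (K ≃ₐ[F] K) ⧸ D i).out : (K ≃ₐ[F] K) ⧸ D i) = g := Quotient.out_eq' _
      have h4 := QuotientGroup.eq.1 h3.symm
      have h5 : (g : (K ≃ₐ[F] K) ⧸ D i).out = g * (g⁻¹ * (g : (K ≃ₐ[F] K) ⧸ D i).out) := by group
      rw [h5, mul_smul, hγ1 i _ h4]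
    obtain ⟨z0, hz1, hz2, r, hr1, hr2⟩ := hA.h2 (fun s => s.2.out • (γ s.1 ^ 2)) (by
      rintro u - ⟨i, c⟩
      have h3 : (c.out : (K ≃ₐ[F] K) ⧸ D i) = c := Quotient.out_eq' c
      have h4 : u • c = ((u * c.out : K ≃ₐ[F] K) : (K ≃ₐ[F] K) ⧸ D i) := by
        conv_lhs => rw [← h3]
        rfl
      have h5 : (u • c).out • (γ i ^ 2) = u • (c.out • (γ i ^ 2)) := by
        rw [h4, hout i, mul_smul]
      exact h5) (by
      rintro ⟨i, c⟩ h0
      exact pow_ne_zero 2 (hγ0 i) ((smul_eq_zero_iff_eq _).1 h0))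
    obtain ⟨δ, hδ⟩ := hsq z0
    have hδ0 : δ ≠ 0 := by
      rintro rfl
      exact hz2 (by rw [← hδ]; ring)
    have hδ1 : Fx (⊤ : Subgroup (K ≃ₐ[F] K)) (δ ^ 2) := by rw [hδ]; exact hz1
    have hρ : ∀ i, ∃ ρ : K, ρ ≠ 0 ∧ Fx (D i) ρ ∧ γ i ^ 2 = z0 * ρ ^ 2 := by
      intro i
      obtain ⟨h3, h4⟩ := hr2 ⟨i, ((1 : K ≃ₐ[F] K) : (K ≃ₐ[F] K) ⧸ D i)⟩
      refine ⟨_, h3, fun d hd => ?_, ?_⟩
      · rw [← hr1 d (Subgroup.mem_top d)]
        congr 1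
        simp only [Sigma.smul_mk]
        have h5 : d • ((1 : K ≃ₐ[F] K) : (K ≃ₐ[F] K) ⧸ D i) =
            ((d * 1 : K ≃ₐ[F] K) : (K ≃ₐ[F] K) ⧸ D i) := rfl
        rw [h5]
        have h6 : ((d * 1 : K ≃ₐ[F] K) : (K ≃ₐ[F] K) ⧸ D i) = ((1 : K ≃ₐ[F] K) : (K ≃ₐ[F] K) ⧸ D i) := by
          rw [QuotientGroup.eq]
          simpa using hd
        rw [h6]
      · simp only at h4
        rw [hout i 1, one_smul] at h4
        exact h4
    have hsg : ∀ i, ∀ x ∈ D i, sg (γ i) x = sg δ x := by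
      intro i x hx
      obtain ⟨ρ, hρ0, hρ1, hρ2⟩ := hρ i
      have h3 : γ i ^ 2 = (δ * ρ) ^ 2 := by rw [hρ2, ← hδ]; ring
      have h4 : x • γ i = γ i ↔ x • δ = δ := by
        rcases sq_eq_sq_iff_eq_or_eq_neg.1 h3 with h5 | h5
        · rw [h5, smul_mul', hρ1 x hx]
          exact mul_left_inj' hρ0
        · rw [h5, smul_neg, neg_inj, smul_mul', hρ1 x hx]
          exact mul_left_inj' hρ0
      unfold sg
      simp only [h4]
    obtain ⟨Ψ, hΨ⟩ : ∃ Ψ : (K ≃ₐ[F] K) →* P, ∀ g, Ψ g = θ g * ζ ^ (sg δ g).val :=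
      ⟨MonoidHom.mk' (fun g => θ g * ζ ^ (sg δ g).val) (fun a b => by
        rw [sg_add h2 hδ0 hδ1 (Subgroup.mem_top a) (Subgroup.mem_top b), zeta_add hC3, map_mul]
        rw [mul_assoc (θ a) (ζ ^ (sg δ a).val), ← mul_assoc (ζ ^ (sg δ a).val),
          zeta_comm hC4 _ (θ b)]
        simp only [mul_assoc]), fun _ => rfl⟩
    refine ⟨Ψ, ?_, ?_⟩
    · obtain ⟨W, hW, hW1⟩ := fixer_open (F := F) δ
      refine Subgroup.isOpen_mono (H₁ := W ⊓ θ.ker) ?_ (hW.inter hθ)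
      intro w hw
      have h3 : sg δ w = 0 := if_pos (hW1 w hw.1)
      rw [MonoidHom.mem_ker, hΨ, h3, MonoidHom.mem_ker.1 hw.2, ZMod.val_zero, pow_zero, mul_one]
    · intro i x
      rw [hΨ, he1 i x x.2, ← hsg i x x.2, ← hγ2 i x x.2, mul_assoc, ← (Commute.refl ζ).mul_pow, hC3,
        one_pow, mul_one]

/-- **Free products.** -/
theorem t_FR (hKU : S_KU) (hLI : S_LI) : S_FR := by
  intro F K _ _ _ _ h2 hsq hV n D hD hA hy P _ _ hP φ hφ
  obtain ⟨k, hk⟩ := hP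
  obtain ⟨ψ, h1, h3⟩ := existence hKU hLI F K h2 hsq hV n D hD hA k P hk φ hφ
  refine ⟨ψ, ⟨h1, h3⟩, ?_⟩
  rintro ψ' ⟨h4, h5⟩
  by_contra hne
  obtain ⟨E, hE⟩ : ∃ E : Subgroup (K ≃ₐ[F] K), ∀ g, g ∈ E ↔ ψ' g = ψ g :=
    ⟨ψ'.eqLocus ψ, fun g => Iff.rfl⟩
  have hVE : ψ'.ker ⊓ ψ.ker ≤ E := by
    intro g hg
    rw [hE, MonoidHom.mem_ker.1 hg.1, MonoidHom.mem_ker.1 hg.2]
  have hop : IsOpen ((ψ'.ker ⊓ ψ.ker : Subgroup (K ≃ₐ[F] K)) : Set (K ≃ₐ[F] K)) := h4.inter h1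
  have hEt : E ≠ ⊤ := by
    intro h
    apply hne
    ext1 g
    exact (hE g).1 (h ▸ Subgroup.mem_top g)
  obtain ⟨j, hj⟩ := hV (ψ'.ker ⊓ ψ.ker) inferInstance hop
  obtain ⟨U, hU1, hU2⟩ := top_two (ψ'.ker ⊓ ψ.ker) inferInstance j hj E hVE hEt
  obtain ⟨γ, h6, h7, h8, τ, -, h10, h11⟩ := root_two hKU h2
    (Subgroup.isOpen_mono (hVE.trans hU1) hop) le_top hU2
  have h12 := hy γ h7 (fun i x hx => ((h8 x).1 (hU1 ((hE x).2 ((h5 i ⟨x, hx⟩).trans
    (h3 i ⟨x, hx⟩).symm)))).2)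
  have h13 := h12 τ (Subgroup.mem_top τ)
  rw [h11] at h13
  apply h6
  have h14 : (2 : K) * γ = 0 := by linear_combination -h13
  exact (mul_eq_zero.1 h14).resolve_left h2

end Pool.Agent.V7H66.FP
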