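import Pool.Agent.V7H66.FP.FR
import Pool.Agent.V7H70.FP.D1
import Pool.Agent.V7H70.FP.D2
import Pool.Agent.V7H70.FP.KU

/-!
# Consequences of the universal property (piece `C1` of the free products for `p = 2`)
-/

set_option autoImplicit false

namespace Pool.Agent.V7H66.FP

open Pool.Agent.V7H55.FP

/-- the Heisenberg group modulo two -/
@[ext] structure Hei where
  x : ZMod 2
  y : ZMod 2
  z : ZMod 2

namespace Hei

instance : Mul Hei := ⟨fun a b => ⟨a.x + b.x, a.y + b.y, a.z + b.z + a.x * b.y⟩⟩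
instance : One Hei := ⟨⟨0, 0, 0⟩⟩
instance : Inv Hei := ⟨fun a => ⟨-a.x, -a.y, -a.z + a.x * a.y⟩⟩

lemma mul_def (a b : Hei) : a * b = ⟨a.x + b.x, a.y + b.y, a.z + b.z + a.x * b.y⟩ := rfl
lemma one_def : (1 : Hei) = ⟨0, 0, 0⟩ := rfl
lemma inv_def (a : Hei) : a⁻¹ = ⟨-a.x, -a.y, -a.z + a.x * a.y⟩ := rfl

instance : Group Hei := Group.ofLeftAxioms
  (fun a b c => by simp only [mul_def]; ext <;> simp only <;> ring)
  (fun a => by simp only [mul_def, one_def]; ext <;> simp)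
  (fun a => by simp only [mul_def, one_def, inv_def]; ext <;> simp only <;> ring)

/-- the coordinates -/
def eqv : Hei ≃ ZMod 2 × ZMod 2 × ZMod 2 where
  toFun a := (a.x, a.y, a.z)
  invFun b := ⟨b.1, b.2.1, b.2.2⟩
  left_inv _ := rfl
  right_inv _ := rfl

instance : Finite Hei := Finite.of_equiv _ eqv.symm

lemma card : Nat.card Hei = 2 ^ 3 := by
  rw [Nat.card_congr eqv]
  simp

end Hei

section Main

variable {F K : Type} [Field F] [Field K] [Algebra F K]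

/-- the universal property of the free pro-2 product -/
def FreeP' {G : Type} [Group G] [TopologicalSpace G] {n : ℕ} (H : Fin n → Subgroup G) : Prop :=
  ∀ (P : Type) [Group P] [Finite P], (∃ k : ℕ, Nat.card P = 2 ^ k) →
    ∀ φ : (i : Fin n) → (H i →* P), (∀ i, IsOpen ((φ i).ker : Set (H i))) →
      ∃! ψ : G →* P, IsOpen (ψ.ker : Set G) ∧ ∀ i, ∀ x : H i, ψ (x : G) = φ i x

lemma sg_one {G K : Type} [Group G] [Field K] [MulSemiringAction G K] (γ : K) :
    sg γ (1 : G) = 0 := by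
  classical
  simp [sg]

/-- the character of a square root -/
noncomputable def chr (h2 : (2 : K) ≠ 0) (H : Subgroup (K ≃ₐ[F] K)) {γ : K} (h0 : γ ≠ 0)
    (hγ : Fx H (γ ^ 2)) : H →* Multiplicative (ZMod 2) where
  toFun g := Multiplicative.ofAdd (sg γ (g : K ≃ₐ[F] K))
  map_one' := by
    rw [Subgroup.coe_one, sg_one]; rfl
  map_mul' g h := by
    rw [Subgroup.coe_mul, sg_add h2 h0 hγ g.2 h.2]; rfl

lemma open_of_sub {P : Type} [Group P] {D : Subgroup (K ≃ₐ[F] K)} (φ : D →* P)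
    {W : Subgroup (K ≃ₐ[F] K)} (hW : IsOpen (W : Set (K ≃ₐ[F] K)))
    (h : ∀ x : D, (x : K ≃ₐ[F] K) ∈ W → φ x = 1) : IsOpen (φ.ker : Set D) := by
  have h1 : IsOpen ((W.subgroupOf D : Subgroup D) : Set D) := by
    have : ((W.subgroupOf D : Subgroup D) : Set D) = Subtype.val ⁻¹' (W : Set (K ≃ₐ[F] K)) := by
      ext x; simp [Subgroup.mem_subgroupOf]
    rw [this]
    exact hW.preimage continuous_subtype_val
  exact Subgroup.isOpen_mono (H₁ := W.subgroupOf D) (fun x hx => h x hx) h1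

lemma open_of_sub' {P : Type} [Group P] (φ : (K ≃ₐ[F] K) →* P)
    {W : Subgroup (K ≃ₐ[F] K)} (hW : IsOpen (W : Set (K ≃ₐ[F] K)))
    (h : ∀ x, x ∈ W → φ x = 1) : IsOpen (φ.ker : Set (K ≃ₐ[F] K)) :=
  Subgroup.isOpen_mono (H₁ := W) (fun x hx => h x hx) hW

lemma card2 : ∃ k : ℕ, Nat.card (Multiplicative (ZMod 2)) = 2 ^ k := ⟨1, by simp⟩

lemma chr_open [IsGalois F K] (h2 : (2 : K) ≠ 0) (H : Subgroup (K ≃ₐ[F] K)) {γ : K} (h0 : γ ≠ 0)
    (hγ : Fx H (γ ^ 2)) : IsOpen ((chr h2 H h0 hγ).ker : Set H) := by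
  classical
  obtain ⟨W, hW, hW2⟩ := fixer_open (F := F) γ
  refine open_of_sub _ hW fun x hx => ?_
  show Multiplicative.ofAdd (sg γ (x : K ≃ₐ[F] K)) = 1
  have : sg γ (x : K ≃ₐ[F] K) = 0 := by
    unfold sg
    rw [if_pos (hW2 _ hx)]
  rw [this]; rfl

/-- the character of a square root on the whole group -/
noncomputable def chrT (h2 : (2 : K) ≠ 0) {γ : K} (h0 : γ ≠ 0)
    (hγ : Fx (⊤ : Subgroup (K ≃ₐ[F] K)) (γ ^ 2)) : (K ≃ₐ[F] K) →* Multiplicative (ZMod 2) where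
  toFun g := Multiplicative.ofAdd (sg γ g)
  map_one' := by rw [sg_one]; rfl
  map_mul' g h := by
    rw [sg_add h2 h0 hγ (Subgroup.mem_top g) (Subgroup.mem_top h)]; rfl

lemma chrT_open [IsGalois F K] (h2 : (2 : K) ≠ 0) {γ : K} (h0 : γ ≠ 0)
    (hγ : Fx (⊤ : Subgroup (K ≃ₐ[F] K)) (γ ^ 2)) :
    IsOpen ((chrT h2 h0 hγ).ker : Set (K ≃ₐ[F] K)) := by
  classical
  obtain ⟨W, hW, hW2⟩ := fixer_open (F := F) γ
  refine open_of_sub' _ hW fun x hx => ?_
  show Multiplicative.ofAdd (sg γ x) = 1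
  have : sg γ x = 0 := by
    unfold sg
    rw [if_pos (hW2 _ hx)]
  rw [this]; rfl

lemma fx_mono {x : K} {H H' : Subgroup (K ≃ₐ[F] K)} (h : H ≤ H') (hx : Fx H' x) : Fx H x :=
  fun u hu => hx u (h hu)

/-- two homomorphisms with open kernels which agree on the factors agree -/
lemma free_uniq {n : ℕ} {H : Fin n → Subgroup (K ≃ₐ[F] K)} (hH : FreeP' H)
    (ψ ψ' : (K ≃ₐ[F] K) →* Multiplicative (ZMod 2)) (h1 : IsOpen (ψ.ker : Set (K ≃ₐ[F] K)))
    (h2 : IsOpen (ψ'.ker : Set (K ≃ₐ[F] K))) (h : ∀ i, ∀ x ∈ H i, ψ x = ψ' x) : ψ = ψ' := by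
  obtain ⟨W, hW, hW2⟩ := open_sub h1 (one_mem _)
  obtain ⟨χ, _, hu⟩ := hH (Multiplicative (ZMod 2)) card2 (fun i => ψ.comp (H i).subtype)
    (fun i => open_of_sub _ hW fun x hx => hW2 hx)
  rw [hu ψ ⟨h1, fun i x => rfl⟩, hu ψ' ⟨h2, fun i x => (h i x x.2).symm⟩]

theorem c1 (F K : Type) [Field F] [Field K] [Algebra F K] [IsGalois F K] (h2 : (2 : K) ≠ 0)
    (hsq : ∀ x : K, ∃ y, y ^ 2 = x) (n : ℕ) (H : Fin n → Subgroup (K ≃ₐ[F] K)) (hH : FreeP' H) :
    (∀ γ : Fin n → K, (∀ i, γ i ≠ 0 ∧ Fx (H i) (γ i ^ 2)) →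
      ∃ δ : K, δ ≠ 0 ∧ Fx (⊤ : Subgroup (K ≃ₐ[F] K)) (δ ^ 2) ∧
        ∀ i, ∀ d ∈ H i, sg δ d = sg (γ i) d) ∧
    (∀ y : K, Fx (⊤ : Subgroup (K ≃ₐ[F] K)) (y ^ 2) → (∀ i, Fx (H i) y) →
      Fx (⊤ : Subgroup (K ≃ₐ[F] K)) y) ∧
    ∀ a b : K, Fx (⊤ : Subgroup (K ≃ₐ[F] K)) a → Fx (⊤ : Subgroup (K ≃ₐ[F] K)) b → a ≠ 0 → b ≠ 0 →
      (∀ i, ∃ r t : K, Fx (H i) r ∧ Fx (H i) t ∧ b = r ^ 2 - a * t ^ 2) →
      ∃ r t : K, Fx (⊤ : Subgroup (K ≃ₐ[F] K)) r ∧ Fx (⊤ : Subgroup (K ≃ₐ[F] K)) t ∧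
        b = r ^ 2 - a * t ^ 2 := by
  classical
  refine ⟨?_, ?_, ?_⟩
  · intro γ hγ
    obtain ⟨ψ, ⟨hψ, hψφ⟩, _⟩ := hH (Multiplicative (ZMod 2)) card2
      (fun i => chr h2 (H i) (hγ i).1 (hγ i).2) (fun i => chr_open h2 (H i) (hγ i).1 (hγ i).2)
    obtain ⟨δ, hδ0, hδ, hδψ⟩ := Pool.Agent.V7H70.FP.t_KU F K h2 ⊤ isClosed_univ
      (fun g => (ψ g).toAdd) ⟨ψ.ker, hψ, fun h _ w _ hw => by
        have : ψ w = 1 := hw
        simp [this]⟩ (fun g _ h _ => by simp)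
    refine ⟨δ, hδ0, hδ, fun i d hd => ?_⟩
    rw [← hδψ d (Subgroup.mem_top d)]
    have := hψφ i ⟨d, hd⟩
    simp only at this
    rw [this]
    rfl
  · intro y hy hyi
    by_cases hy0 : y = 0
    · subst hy0
      intro u _
      exact smul_zero u
    have h1 := free_uniq hH (chrT h2 hy0 hy) 1 (chrT_open h2 hy0 hy) (by
      rw [MonoidHom.ker_one]; exact isOpen_univ) (fun i x hx => by
        show Multiplicative.ofAdd (sg y x) = 1
        have : sg y x = 0 := by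
          unfold sg
          rw [if_pos (hyi i x hx)]
        rw [this]; rfl)
    intro u _
    by_contra hu
    have h3 : Multiplicative.ofAdd (sg y u) = 1 := by
      have := DFunLike.congr_fun h1 u
      exact this
    have h4 : sg y u = 1 := by
      unfold sg
      rw [if_neg hu]
    rw [h4] at h3
    exact absurd h3 (by decide)
  · intro a b ha hb ha0 hb0 hab
    obtain ⟨α, hα⟩ := hsq a
    obtain ⟨β, hβ⟩ := hsq b
    have hα0 : α ≠ 0 := by rintro rfl; apply ha0; rw [← hα]; simp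
    have hβ0 : β ≠ 0 := by rintro rfl; apply hb0; rw [← hβ]; simp
    rw [← hα] at ha
    rw [← hβ] at hb
    have hαi : ∀ i, Fx (H i) (α ^ 2) := fun i => fx_mono le_top ha
    have hβi : ∀ i, Fx (H i) (β ^ 2) := fun i => fx_mono le_top hb
    have hD1 : ∀ i, ∃ e : (K ≃ₐ[F] K) → ZMod 2, LC (H i) e ∧
        ∀ g ∈ H i, ∀ h ∈ H i, e (g * h) = e g + e h + sg β g * sg α h := by
      intro i
      obtain ⟨r, t, hr, ht, hrt⟩ := hab i
      exact Pool.Agent.V7H70.FP.t_D1 F K h2 hsq (H i) α β r t hα0 hβ0 (hαi i) (hβi i) hr ht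
        (by rw [hα, hβ]; exact hrt)
    choose e he1 he2 using hD1
    have he0 : ∀ i, e i 1 = 0 := by
      intro i
      have := he2 i 1 (one_mem _) 1 (one_mem _)
      rw [mul_one, sg_one, zero_mul, add_zero] at this
      linear_combination -this
    let φ : (i : Fin n) → (H i →* Hei) := fun i =>
      { toFun := fun g => ⟨sg β (g : K ≃ₐ[F] K), sg α (g : K ≃ₐ[F] K), e i g⟩
        map_one' := by
          rw [Subgroup.coe_one, sg_one, sg_one, he0]; rfl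
        map_mul' := fun g h => by
          rw [Subgroup.coe_mul, sg_add h2 hβ0 (hβi i) g.2 h.2, sg_add h2 hα0 (hαi i) g.2 h.2,
            he2 i _ g.2 _ h.2]
          rfl }
    obtain ⟨Wα, hWα, hWα2⟩ := fixer_open (F := F) α
    obtain ⟨Wβ, hWβ, hWβ2⟩ := fixer_open (F := F) β
    obtain ⟨ψ, ⟨hψ, hψφ⟩, _⟩ := hH Hei ⟨3, Hei.card⟩ φ (fun i => by
      obtain ⟨W, hW, hW2⟩ := he1 i
      refine open_of_sub (W := W ⊓ (Wα ⊓ Wβ)) _ ?_ ?_
      · exact hW.inter (hWα.inter hWβ)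
      · rintro x ⟨hx1, hx2, hx3⟩
        show (⟨sg β (x : K ≃ₐ[F] K), sg α (x : K ≃ₐ[F] K), e i x⟩ : Hei) = ⟨0, 0, 0⟩
        have e1 : sg β (x : K ≃ₐ[F] K) = 0 := by
          unfold sg
          rw [if_pos (hWβ2 _ hx3)]
        have e2 : sg α (x : K ≃ₐ[F] K) = 0 := by
          unfold sg
          rw [if_pos (hWα2 _ hx2)]
        have e3 : e i x = 0 := by
          have := hW2 1 (one_mem _) x x.2 hx1
          rw [one_mul, he0] at this
          exact this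
        rw [e1, e2, e3])
    -- the first two coordinates
    obtain ⟨Wψ, hWψ, hWψ2⟩ := open_sub hψ (one_mem _)
    let p1 : Hei →* Multiplicative (ZMod 2) :=
      { toFun := fun a => Multiplicative.ofAdd a.x
        map_one' := rfl
        map_mul' := fun _ _ => rfl }
    let p2 : Hei →* Multiplicative (ZMod 2) :=
      { toFun := fun a => Multiplicative.ofAdd a.y
        map_one' := rfl
        map_mul' := fun _ _ => rfl }
    have op : ∀ p : Hei →* Multiplicative (ZMod 2), IsOpen ((p.comp ψ).ker : Set (K ≃ₐ[F] K)) := by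
      intro p
      refine open_of_sub' _ hψ fun x hx => ?_
      rw [MonoidHom.comp_apply, MonoidHom.mem_ker.1 hx, map_one]
    have q1 := free_uniq hH (p1.comp ψ) (chrT h2 hβ0 hb) (op p1) (chrT_open h2 hβ0 hb)
      (fun i x hx => by
        have h5 := hψφ i ⟨x, hx⟩
        simp only at h5
        rw [MonoidHom.comp_apply, h5]
        rfl)
    have q2 := free_uniq hH (p2.comp ψ) (chrT h2 hα0 ha) (op p2) (chrT_open h2 hα0 ha)
      (fun i x hx => by
        have h5 := hψφ i ⟨x, hx⟩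
        simp only at h5
        rw [MonoidHom.comp_apply, h5]
        rfl)
    have hx : ∀ g, (ψ g).x = sg β g := fun g => by
      have := DFunLike.congr_fun q1 g
      exact this
    have hy : ∀ g, (ψ g).y = sg α g := fun g => by
      have := DFunLike.congr_fun q2 g
      exact this
    obtain ⟨r, t, hr, ht, hrt⟩ := Pool.Agent.V7H70.FP.t_D2 F K h2 hsq ⊤ isClosed_univ α β hα0 hβ0
      ha hb (fun g => (ψ g).z) ⟨ψ.ker, hψ, fun h _ w _ hw => by
        have : ψ w = 1 := hw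
        show (ψ (h * w)).z = (ψ h).z
        rw [map_mul, this, mul_one]⟩ (fun g _ h _ => by
          show (ψ (g * h)).z = (ψ g).z + (ψ h).z + sg β g * sg α h
          rw [map_mul, ← hx, ← hy]
          rfl)
    refine ⟨r, t, hr, ht, ?_⟩
    rw [← hα, ← hβ]
    exact hrt

end Main

end Pool.Agent.V7H66.FP
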